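import Pool.Agent.TH6.FB.Mod

set_option autoImplicit false

/-! Let `φ : E → G` be a surjective homomorphism of groups and `R` a ring. An `RE`-module with a
presentation which is controlled over `G` by a matrix of `ℓ²`-operator norm less than `3 / √2` is a
direct sum of modules induced from subgroups of `E` with virtually cyclic image in `G`. -/

namespace Pool.Agent.Results.MP_2a547c_gt.ThinModules

open TH57.Thr TH6.PF TH6.FB

theorem result (R : Type) [Ring R] (E G : Type) [Group E] [Group G] (φ : E →* G)
    (hφ : Function.Surjective φ)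
    (P : Type) [AddCommGroup P] [Module (MonoidAlgebra R E) P]
    (m n : ℕ) (M : Matrix (Fin m) (Fin n) (MonoidAlgebra R E))
    (e : P ≃ₗ[MonoidAlgebra R E] Coker M)
    (A : Matrix (Fin m) (Fin n) (MonoidAlgebra ℤ G))
    (c : ℝ) (hc0 : 0 < c) (hc : c ^ 2 < 9 / 2) (hA : NormLE A c) (hM : Ctrl φ A M) :
    FibSum R φ P :=
  ctrl_modules φ hφ P m n M e A c hc0 hc hA hM

end Pool.Agent.Results.MP_2a547c_gt.ThinModules
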